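import Mathlib

/-!
# Euler's transformation and Legendre polynomials of even and odd degree
-/

set_option autoImplicit false

namespace Pool.Agent.Q278.SX

open Finset

section euler

variable {A : Type*} [CommRing A]

/-- `G(N, M; Y) = ∑ C(N,k) C(M+k,k) Y^k` -/
def G (N M : ℕ) (Y : A) : A :=
  ∑ k ∈ range (N + 1), ((N.choose k : ℕ) : A) * (((M + k).choose k : ℕ) : A) * Y ^ k

theorem vander (M k N : ℕ) (h : k ≤ N) :
    (M + k).choose k = ∑ j ∈ range (N + 1), M.choose j * k.choose j := by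
  rw [Nat.add_choose_eq, Finset.Nat.sum_antidiagonal_eq_sum_range_succ
    (fun i j => M.choose i * k.choose j)]
  have h1 : range (k + 1) ⊆ range (N + 1) := range_subset_range.2 (by omega)
  rw [← sum_subset h1]
  · refine sum_congr rfl fun j hj => ?_
    rw [mem_range] at hj
    rw [Nat.choose_symm (by omega : j ≤ k)]
  · intro j _ hj
    rw [mem_range] at hj
    rw [Nat.choose_eq_zero_of_lt (by omega : k < j), mul_zero]

theorem inner (N j : ℕ) (hj : j ≤ N) (Y : A) :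
    ∑ k ∈ range (N + 1), ((N.choose k : ℕ) : A) * ((k.choose j : ℕ) : A) * Y ^ k =
      ((N.choose j : ℕ) : A) * Y ^ j * (1 + Y) ^ (N - j) := by
  have e : N + 1 = j + (N - j + 1) := by omega
  rw [e, sum_range_add, sum_eq_zero, zero_add, add_comm (1 : A) Y, add_pow, mul_sum]
  · refine sum_congr rfl fun i hi => ?_
    rw [mem_range] at hi
    have h1 : N.choose (j + i) * (j + i).choose j = N.choose j * (N - j).choose i := by
      rw [Nat.choose_mul, Nat.add_sub_cancel_left]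
      omega
    have h2 : ((N.choose (j + i) : ℕ) : A) * (((j + i).choose j : ℕ) : A) =
        ((N.choose j : ℕ) : A) * (((N - j).choose i : ℕ) : A) := by
      exact_mod_cast congrArg (Nat.cast (R := A)) h1
    rw [h2, pow_add, one_pow]
    ring
  · intro i hi
    rw [mem_range] at hi
    rw [Nat.choose_eq_zero_of_lt hi]
    push_cast
    ring

theorem G_eq (N M : ℕ) (Y : A) : G N M Y =
    ∑ j ∈ range (N + 1), ((M.choose j : ℕ) : A) * ((N.choose j : ℕ) : A) * Y ^ j *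
      (1 + Y) ^ (N - j) := by
  unfold G
  have h1 : ∀ k ∈ range (N + 1), ((N.choose k : ℕ) : A) * (((M + k).choose k : ℕ) : A) * Y ^ k =
      ∑ j ∈ range (N + 1), ((M.choose j : ℕ) : A) *
        (((N.choose k : ℕ) : A) * ((k.choose j : ℕ) : A) * Y ^ k) := by
    intro k hk
    rw [mem_range] at hk
    rw [vander M k N (by omega)]
    push_cast
    rw [mul_sum, sum_mul]
    exact sum_congr rfl fun j _ => by ring
  rw [sum_congr rfl h1, sum_comm]
  refine sum_congr rfl fun j hj => ?_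
  rw [mem_range] at hj
  rw [← mul_sum, inner N j (by omega)]
  ring

/-- **Euler's transformation** -/
theorem euler (N M : ℕ) (h : M ≤ N) (Y : A) : G N M Y = (1 + Y) ^ (N - M) * G M N Y := by
  rw [G_eq, G_eq, mul_sum]
  have h1 : range (M + 1) ⊆ range (N + 1) := range_subset_range.2 (by omega)
  rw [← sum_subset h1]
  · refine sum_congr rfl fun j hj => ?_
    rw [mem_range] at hj
    have e : N - j = (N - M) + (M - j) := by omega
    rw [e, pow_add]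
    ring
  · intro j _ hj
    rw [mem_range] at hj
    rw [Nat.choose_eq_zero_of_lt (by omega : M < j)]
    push_cast
    ring

end euler

section legendre

/-- truncated power sums -/
def Su (f : ℕ → ℚ) (Z : ℚ) (N : ℕ) : ℚ := ∑ k ∈ range N, f k * Z ^ k

theorem Su_stable (f : ℕ → ℚ) (Z : ℚ) (a N : ℕ) (ha : a ≤ N) (h : ∀ k, a ≤ k → f k = 0) :
    Su f Z N = Su f Z a := by
  unfold Su
  rw [← sum_subset (range_subset_range.2 ha)]
  intro k _ hk
  rw [mem_range, not_lt] at hk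
  rw [h k hk, zero_mul]

theorem Su_shift (f : ℕ → ℚ) (Z : ℚ) (N : ℕ) :
    Su f Z (N + 1) = f 0 + Z * ∑ k ∈ range N, f (k + 1) * Z ^ k := by
  unfold Su
  rw [sum_range_succ', pow_zero, mul_one, add_comm, mul_sum]
  congr 1
  exact sum_congr rfl fun k _ => by ring

/-- general coefficients -/
def co (a b : ℚ) (k : ℕ) : ℚ := ∏ i ∈ range k, ((a - i) * (b + i) / ((i : ℚ) + 1) ^ 2)

theorem co_zero (a b : ℚ) : co a b 0 = 1 := by simp [co]

theorem co_succ (a b : ℚ) (k : ℕ) :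
    co a b (k + 1) * ((k : ℚ) + 1) ^ 2 = co a b k * ((a - k) * (b + k)) := by
  have h : ((k : ℚ) + 1) ≠ 0 := by positivity
  unfold co
  rw [prod_range_succ]
  field_simp

theorem co_vanish (n : ℕ) (b : ℚ) (k : ℕ) (h : n < k) : co n b k = 0 := by
  unfold co
  apply prod_eq_zero (mem_range.2 h)
  simp

/-- lowering `a` by one -/
theorem co_a (a b : ℚ) (k : ℕ) : (a + 1) * co a b k = (a + 1 - k) * co (a + 1) b k := by
  induction k with
  | zero => rw [co_zero, co_zero]; push_cast; ring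
  | succ k ih =>
    have h : ((k : ℚ) + 1) ^ 2 ≠ 0 := by positivity
    have e1 := co_succ a b k
    have e2 := co_succ (a + 1) b k
    apply mul_right_cancel₀ h
    push_cast
    linear_combination (a + 1) * e1 - (a - k) * e2 + (a - k) * (b + k) * ih

/-- raising `b` by one -/
theorem co_b (a b : ℚ) (k : ℕ) : b * co a (b + 1) k = (b + k) * co a b k := by
  induction k with
  | zero => rw [co_zero, co_zero]; push_cast; ring
  | succ k ih =>
    have h : ((k : ℚ) + 1) ^ 2 ≠ 0 := by positivity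
    have e1 := co_succ a (b + 1) k
    have e2 := co_succ a b k
    apply mul_right_cancel₀ h
    push_cast
    linear_combination b * e1 - (b + (k + 1)) * e2 + (a - k) * (b + 1 + k) * ih

/-- Legendre polynomial -/
def P (Y : ℚ) (n : ℕ) : ℚ := Su (co n (n + 1)) Y (n + 1)

/-- even part -/
def E (Z : ℚ) (n : ℕ) : ℚ := Su (co n (n + 1 / 2)) Z (n + 1)

/-- odd part -/
def U (Z : ℚ) (n : ℕ) : ℚ := Su (co n (n + 3 / 2)) Z (n + 1)

theorem P_rec (Y : ℚ) (n : ℕ) : ((n : ℚ) + 2) * P Y (n + 2) =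
    (2 * n + 3) * (1 + 2 * Y) * P Y (n + 1) - (n + 1) * P Y n := by
  have s2 : P Y (n + 2) = Su (co ((n + 2 : ℕ) : ℚ) (((n + 2 : ℕ) : ℚ) + 1)) Y (n + 3) := rfl
  have s1 : P Y (n + 1) = Su (co ((n + 1 : ℕ) : ℚ) (((n + 1 : ℕ) : ℚ) + 1)) Y (n + 3) :=
    (Su_stable _ _ _ _ (by omega) fun k hk => co_vanish _ _ _ (by omega)).symm
  have s1' : P Y (n + 1) = Su (co ((n + 1 : ℕ) : ℚ) (((n + 1 : ℕ) : ℚ) + 1)) Y (n + 2) := rfl
  have s0 : P Y n = Su (co (n : ℚ) ((n : ℚ) + 1)) Y (n + 3) :=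
    (Su_stable _ _ _ _ (by omega) fun k hk => co_vanish _ _ _ (by omega)).symm
  have key : ∀ k : ℕ, ((n : ℚ) + 2) * co ((n + 2 : ℕ) : ℚ) (((n + 2 : ℕ) : ℚ) + 1) (k + 1) =
      (2 * n + 3) * (co ((n + 1 : ℕ) : ℚ) (((n + 1 : ℕ) : ℚ) + 1) (k + 1) +
        2 * co ((n + 1 : ℕ) : ℚ) (((n + 1 : ℕ) : ℚ) + 1) k) -
      (n + 1) * co (n : ℚ) ((n : ℚ) + 1) (k + 1) := by
    intro k
    have hk : ((k : ℚ) + 1) ^ 2 ≠ 0 := by positivity
    have h1 : ((n : ℚ) + 1) ≠ 0 := by positivity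
    have h2 : ((n : ℚ) + 2) ≠ 0 := by positivity
    -- base: co (n+2) (n+1)
    have g := co_succ ((n : ℚ) + 2) (n + 1) k
    have b1 : ∀ j : ℕ, ((n : ℚ) + 1) * co (n + 2) (n + 1 + 1) j = (n + 1 + j) * co (n + 2) (n + 1) j :=
      fun j => co_b _ _ j
    have b2 : ∀ j : ℕ, ((n : ℚ) + 1 + 1) * co (n + 2) (n + 1 + 1 + 1) j =
        (n + 1 + 1 + j) * co (n + 2) (n + 1 + 1) j := fun j => co_b _ _ j
    have a1 : ∀ j : ℕ, ((n : ℚ) + 1 + 1) * co (n + 1) (n + 1 + 1) j =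
        (n + 1 + 1 - j) * co (n + 1 + 1) (n + 1 + 1) j := fun j => co_a _ _ j
    have a2 : ∀ j : ℕ, ((n : ℚ) + 1) * co n (n + 1) j = (n + 1 - j) * co (n + 1) (n + 1) j :=
      fun j => co_a _ _ j
    have a3 : ∀ j : ℕ, ((n : ℚ) + 1 + 1) * co (n + 1) (n + 1) j =
        (n + 1 + 1 - j) * co (n + 1 + 1) (n + 1) j := fun j => co_a _ _ j
    have e2 : ((n : ℚ) + 1 + 1) = n + 2 := by ring
    have e3 : ((n : ℚ) + 1 + 1 + 1) = n + 3 := by ring
    simp only [e2] at b1 b2 a1 a3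
    have e4 : (n : ℚ) + 2 + 1 = n + 3 := by ring
    simp only [e4] at b2
    push_cast
    rw [e2, e4]
    have c2 : ∀ j : ℕ, ((n : ℚ) + 1) * (n + 2) * co (n + 2) (n + 3) j =
        (n + 1 + j) * (n + 2 + j) * co (n + 2) (n + 1) j := by
      intro j
      linear_combination ((n : ℚ) + 1) * b2 j + ((n : ℚ) + 2 + j) * b1 j
    have c1 : ∀ j : ℕ, ((n : ℚ) + 1) * (n + 2) * co (n + 1) (n + 2) j =
        (n + 1 + j) * (n + 2 - j) * co (n + 2) (n + 1) j := by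
      intro j
      linear_combination ((n : ℚ) + 1) * a1 j + ((n : ℚ) + 2 - j) * b1 j
    have c0 : ∀ j : ℕ, ((n : ℚ) + 1) * (n + 2) * co n (n + 1) j =
        (n + 1 - j) * (n + 2 - j) * co (n + 2) (n + 1) j := by
      intro j
      linear_combination ((n : ℚ) + 2) * a2 j + ((n : ℚ) + 1 - j) * a3 j
    have d2 := c2 (k + 1)
    have d1 := c1 (k + 1)
    have d0 := c0 (k + 1)
    have d1' := c1 k
    push_cast at d2 d1 d0
    apply mul_left_cancel₀ (mul_ne_zero (mul_ne_zero h1 h2) hk)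
    linear_combination ((n : ℚ) + 2) * (k + 1) ^ 2 * d2 - (2 * n + 3) * (k + 1) ^ 2 * d1
      - 2 * (2 * n + 3) * (k + 1) ^ 2 * d1' + (n + 1) * (k + 1) ^ 2 * d0
      + (((n : ℚ) + 2) * ((n + 1 + (k + 1)) * (n + 2 + (k + 1)))
        - (2 * n + 3) * ((n + 1 + (k + 1)) * (n + 2 - (k + 1)))
        + (n + 1) * ((n + 1 - (k + 1)) * (n + 2 - (k + 1)))) * g
  rw [s2, s0]
  have t1 : (1 + 2 * Y) * P Y (n + 1) = P Y (n + 1) + 2 * Y * P Y (n + 1) := by ring
  have t2 : (2 * (n : ℚ) + 3) * (1 + 2 * Y) * P Y (n + 1) =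
      (2 * n + 3) * (Su (co ((n + 1 : ℕ) : ℚ) (((n + 1 : ℕ) : ℚ) + 1)) Y (n + 3) +
        2 * Y * Su (co ((n + 1 : ℕ) : ℚ) (((n + 1 : ℕ) : ℚ) + 1)) Y (n + 2)) := by
    rw [mul_assoc, t1]
    nth_rewrite 1 [s1]
    rw [s1']
  rw [t2, Su_shift, Su_shift, Su_shift _ _ (n + 2), co_zero, co_zero, co_zero]
  unfold Su
  have t3 : ((n : ℚ) + 2) * ∑ k ∈ range (n + 2),
      co ((n + 2 : ℕ) : ℚ) (((n + 2 : ℕ) : ℚ) + 1) (k + 1) * Y ^ k =
      (2 * n + 3) * (∑ k ∈ range (n + 2), co ((n + 1 : ℕ) : ℚ) (((n + 1 : ℕ) : ℚ) + 1) (k + 1) * Y ^ k +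
        2 * ∑ k ∈ range (n + 2), co ((n + 1 : ℕ) : ℚ) (((n + 1 : ℕ) : ℚ) + 1) k * Y ^ k) -
      (n + 1) * ∑ k ∈ range (n + 2), co (n : ℚ) ((n : ℚ) + 1) (k + 1) * Y ^ k := by
    rw [mul_sum, mul_sum, ← sum_add_distrib, mul_sum, mul_sum, ← sum_sub_distrib]
    refine sum_congr rfl fun k _ => ?_
    linear_combination Y ^ k * key k
  linear_combination Y * t3

theorem U_rec (Z : ℚ) (n : ℕ) : (2 * (n : ℚ) + 3) * U Z (n + 1) =
    (4 * n + 5) * E Z (n + 1) - (2 * n + 2) * U Z n := by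
  have s0 : U Z n = Su (co (n : ℚ) ((n : ℚ) + 3 / 2)) Z (n + 2) :=
    (Su_stable _ _ _ _ (by omega) fun k hk => co_vanish _ _ _ (by omega)).symm
  rw [s0]
  unfold U E Su
  rw [mul_sum, mul_sum, mul_sum, ← sum_sub_distrib]
  refine sum_congr rfl fun k _ => ?_
  have h1 : ((n : ℚ) + 1) ≠ 0 := by positivity
  have h3 : (2 * (n : ℚ) + 3) ≠ 0 := by positivity
  have a1 := co_a (n : ℚ) (n + 3 / 2) k
  have b1 := co_b ((n : ℚ) + 1) (n + 3 / 2) k
  push_cast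
  have e1 : (n : ℚ) + 1 + 1 / 2 = n + 3 / 2 := by ring
  have e2 : (n : ℚ) + 1 + 3 / 2 = n + 3 / 2 + 1 := by ring
  rw [e1, e2]
  linear_combination 2 * Z ^ k * b1 + 2 * Z ^ k * a1

theorem E_rec (Z : ℚ) (n : ℕ) : (2 * (n : ℚ) + 2) * E Z (n + 1) =
    (4 * n + 3) * (1 + Z) * U Z n - (2 * n + 1) * E Z n := by
  have s0 : U Z n = Su (co (n : ℚ) ((n : ℚ) + 3 / 2)) Z (n + 2) :=
    (Su_stable _ _ _ _ (by omega) fun k hk => co_vanish _ _ _ (by omega)).symm
  have s0' : U Z n = Su (co (n : ℚ) ((n : ℚ) + 3 / 2)) Z (n + 1) := rfl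
  have s1 : E Z n = Su (co (n : ℚ) ((n : ℚ) + 1 / 2)) Z (n + 2) :=
    (Su_stable _ _ _ _ (by omega) fun k hk => co_vanish _ _ _ (by omega)).symm
  have s2 : E Z (n + 1) = Su (co ((n + 1 : ℕ) : ℚ) (((n + 1 : ℕ) : ℚ) + 1 / 2)) Z (n + 2) := rfl
  have key : ∀ k : ℕ, (2 * (n : ℚ) + 2) * co ((n + 1 : ℕ) : ℚ) (((n + 1 : ℕ) : ℚ) + 1 / 2) (k + 1) =
      (4 * n + 3) * (co (n : ℚ) ((n : ℚ) + 3 / 2) (k + 1) + co (n : ℚ) ((n : ℚ) + 3 / 2) k) -
      (2 * n + 1) * co (n : ℚ) ((n : ℚ) + 1 / 2) (k + 1) := by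
    intro k
    have hk : ((k : ℚ) + 1) ^ 2 ≠ 0 := by positivity
    have h1 : ((n : ℚ) + 1) ≠ 0 := by positivity
    have h2 : ((n : ℚ) + 1 / 2) ≠ 0 := by positivity
    have g := co_succ ((n : ℚ) + 1) (n + 1 / 2) k
    have e1 : (n : ℚ) + 1 + 1 / 2 = n + 3 / 2 := by ring
    have e2 : (n : ℚ) + 1 / 2 + 1 = n + 3 / 2 := by ring
    push_cast
    rw [e1]
    have c1 : ∀ j : ℕ, ((n : ℚ) + 1 / 2) * co (n + 1) (n + 3 / 2) j =
        (n + 1 / 2 + j) * co (n + 1) (n + 1 / 2) j := by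
      intro j
      have := co_b ((n : ℚ) + 1) (n + 1 / 2) j
      rwa [e2] at this
    have c2 : ∀ j : ℕ, ((n : ℚ) + 1) * ((n : ℚ) + 1 / 2) * co n (n + 3 / 2) j =
        (n + 1 - j) * (n + 1 / 2 + j) * co (n + 1) (n + 1 / 2) j := by
      intro j
      linear_combination ((n : ℚ) + 1 / 2) * co_a (n : ℚ) (n + 3 / 2) j + ((n : ℚ) + 1 - j) * c1 j
    have c3 : ∀ j : ℕ, ((n : ℚ) + 1) * co n (n + 1 / 2) j =
        (n + 1 - j) * co (n + 1) (n + 1 / 2) j := fun j => co_a _ _ j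
    have d1 := c1 (k + 1)
    have d2 := c2 (k + 1)
    have d3 := c3 (k + 1)
    have d2' := c2 k
    push_cast at d1 d2 d3
    apply mul_left_cancel₀ (mul_ne_zero (mul_ne_zero h1 h2) hk)
    linear_combination (2 * (n : ℚ) + 2) * (n + 1) * (k + 1) ^ 2 * d1
      - (4 * n + 3) * (k + 1) ^ 2 * d2 - (4 * n + 3) * (k + 1) ^ 2 * d2'
      + (2 * n + 1) * (n + 1 / 2) * (k + 1) ^ 2 * d3
      + ((2 * (n : ℚ) + 2) * (n + 1) * (n + 1 / 2 + (k + 1))
        - (4 * n + 3) * ((n + 1 - (k + 1)) * (n + 1 / 2 + (k + 1)))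
        + (2 * n + 1) * (n + 1 / 2) * (n + 1 - (k + 1))) * g
  have t1 : (4 * (n : ℚ) + 3) * (1 + Z) * U Z n =
      (4 * n + 3) * (Su (co (n : ℚ) ((n : ℚ) + 3 / 2)) Z (n + 2) +
        Z * Su (co (n : ℚ) ((n : ℚ) + 3 / 2)) Z (n + 1)) := by
    have t2 : (4 * (n : ℚ) + 3) * (1 + Z) * U Z n = (4 * n + 3) * (U Z n + Z * U Z n) := by ring
    rw [t2]
    nth_rewrite 1 [s0]
    rw [s0']
  rw [t1, s1, s2, Su_shift, Su_shift, Su_shift _ _ (n + 1), co_zero, co_zero, co_zero]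
  unfold Su
  have t3 : (2 * (n : ℚ) + 2) * ∑ k ∈ range (n + 1),
      co ((n + 1 : ℕ) : ℚ) (((n + 1 : ℕ) : ℚ) + 1 / 2) (k + 1) * Z ^ k =
      (4 * n + 3) * (∑ k ∈ range (n + 1), co (n : ℚ) ((n : ℚ) + 3 / 2) (k + 1) * Z ^ k +
        ∑ k ∈ range (n + 1), co (n : ℚ) ((n : ℚ) + 3 / 2) k * Z ^ k) -
      (2 * n + 1) * ∑ k ∈ range (n + 1), co (n : ℚ) ((n : ℚ) + 1 / 2) (k + 1) * Z ^ k := by
    rw [← sum_add_distrib, mul_sum, mul_sum, mul_sum, ← sum_sub_distrib]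
    refine sum_congr rfl fun k _ => ?_
    linear_combination Z ^ k * key k
  linear_combination Z * t3

/-- **even and odd Legendre polynomials** -/
theorem P_parity (Y : ℚ) (n : ℕ) : P Y (2 * n) = E (4 * Y * (1 + Y)) n ∧
    P Y (2 * n + 1) = (1 + 2 * Y) * U (4 * Y * (1 + Y)) n := by
  induction n with
  | zero =>
    constructor
    · simp [P, E, Su, co]
    · have h : P Y 1 = 1 + 2 * Y := by
        unfold P Su co
        rw [sum_range_succ, sum_range_one]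
        norm_num [prod_range_succ]
      have h' : U (4 * Y * (1 + Y)) 0 = 1 := by simp [U, Su, co]
      rw [mul_zero, zero_add, h, h', mul_one]
  | succ n ih =>
    obtain ⟨i1, i2⟩ := ih
    have r1 := P_rec Y (2 * n)
    have r2 := E_rec (4 * Y * (1 + Y)) n
    have r3 := P_rec Y (2 * n + 1)
    have r4 := U_rec (4 * Y * (1 + Y)) n
    have h2 : (2 * (n : ℚ) + 2) ≠ 0 := by positivity
    have h3 : (2 * (n : ℚ) + 3) ≠ 0 := by positivity
    rw [i1, i2] at r1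
    have g1 : P Y (2 * (n + 1)) = E (4 * Y * (1 + Y)) (n + 1) := by
      apply mul_left_cancel₀ h2
      rw [show 2 * (n + 1) = 2 * n + 2 by ring]
      push_cast at r1
      linear_combination r1 - r2
    refine ⟨g1, ?_⟩
    apply mul_left_cancel₀ h3
    rw [show 2 * n + 1 + 1 = 2 * (n + 1) by ring, g1, i2] at r3
    rw [show 2 * (n + 1) + 1 = 2 * n + 1 + 2 by ring]
    push_cast at r3
    linear_combination r3 - (1 + 2 * Y) * r4

end legendre

end Pool.Agent.Q278.SX
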