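import Pool.Agent.Q267.CDE.Base
import Pool.Agent.Q267.CDE.Res2
import Pool.Agent.Q278.SX.A

/-!
# Truncated sums modulo `p²` as affine functions of the parameters
-/

set_option autoImplicit false

namespace Pool.Agent.Q278.SX

open Finset Pool.Agent.Q267.CDE

variable {p : ℕ}

/-- affine functions of `x, y, c + d` modulo `p²` -/
def Af (f : R p → R p → R p → R p → R p) : Prop :=
  ∃ a A B C : R p, ∀ x y c d, f x y c d = a + p * (x * A + y * B + (c + d) * C)

theorem Af.const (a : R p) : Af (fun _ _ _ _ => a) :=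
  ⟨a, 0, 0, 0, fun x y c d => by ring⟩

theorem Af.add {f g : R p → R p → R p → R p → R p} (hf : Af f) (hg : Af g) :
    Af (fun x y c d => f x y c d + g x y c d) := by
  obtain ⟨a, A, B, C, h⟩ := hf
  obtain ⟨a', A', B', C', h'⟩ := hg
  exact ⟨a + a', A + A', B + B', C + C', fun x y c d => by beta_reduce; rw [h, h']; ring⟩

theorem Af.congr {f g : R p → R p → R p → R p → R p} (h : ∀ x y c d, f x y c d = g x y c d)
    (hg : Af g) : Af f := by
  obtain ⟨a, A, B, C, h'⟩ := hg
  exact ⟨a, A, B, C, fun x y c d => (h x y c d).trans (h' x y c d)⟩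

theorem Af.mul {f g : R p → R p → R p → R p → R p} (hf : Af f) (hg : Af g) :
    Af (fun x y c d => f x y c d * g x y c d) := by
  obtain ⟨a, A, B, C, h⟩ := hf
  obtain ⟨a', A', B', C', h'⟩ := hg
  have hp := p_sq p
  refine ⟨a * a', a * A' + a' * A, a * B' + a' * B, a * C' + a' * C, fun x y c d => ?_⟩
  beta_reduce
  rw [h, h']
  linear_combination ((x * A + y * B + (c + d) * C) * (x * A' + y * B' + (c + d) * C')) * hp

section

variable (p) [hp : Fact p.Prime]

/-- inverse of a shifted unit -/
theorem inv_shift (i : ℕ) (hi : i + 1 < p) (c : R p) :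
    (((i : R p) + 1) + p * c)⁻¹ = ((i : R p) + 1)⁻¹ - p * c * (((i : R p) + 1)⁻¹) ^ 2 ∧
      ((i : R p) + 1) * ((i : R p) + 1)⁻¹ = 1 := by
  have h0 : IsUnit ((i : R p) + 1) := by
    have := isUnit_nat p (i + 1) (by omega) hi
    push_cast at this
    exact this
  have h1 : ((i : R p) + 1) * ((i : R p) + 1)⁻¹ = 1 := ZMod.mul_inv_of_unit _ h0
  refine ⟨?_, h1⟩
  set v := ((i : R p) + 1)⁻¹ with hv
  have hpp := p_sq p
  have h2 : (((i : R p) + 1) + p * c) * (v - p * c * v ^ 2) = 1 := by
    linear_combination (1 - p * c * v) * h1 - (c ^ 2 * v ^ 2) * hpp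
  have h3 : IsUnit (((i : R p) + 1) + p * c) := IsUnit.of_mul_eq_one _ h2
  have h4 := ZMod.mul_inv_of_unit _ h3
  set u := ((i : R p) + 1) + p * c
  linear_combination (-u⁻¹) * h2 + (v - p * c * v ^ 2) * h4

/-- the terms -/
noncomputable def tm (α β z x y c d : R p) (k : ℕ) : R p :=
  ∏ i ∈ range k, ((α + i + p * x) * (β + i + p * y) * z * (((i : R p) + 1) + p * c)⁻¹ *
    (((i : R p) + 1) + p * d)⁻¹)

/-- the sums -/
noncomputable def Hs (α β z x y c d : R p) : R p := ∑ k ∈ range p, tm p α β z x y c d k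

theorem tm_zero (α β z x y c d : R p) : tm p α β z x y c d 0 = 1 := by simp [tm]

theorem tm_af (α β z : R p) (k : ℕ) (hk : k < p) : Af (fun x y c d => tm p α β z x y c d k) := by
  induction k with
  | zero => simp only [tm_zero]; exact Af.const 1
  | succ k ih =>
    have ih := ih (by omega)
    have h1 : Af (fun x y c d : R p => (α + k + p * x) * (β + k + p * y) * z *
        (((k : R p) + 1) + p * c)⁻¹ * (((k : R p) + 1) + p * d)⁻¹) := by
      set v := ((k : R p) + 1)⁻¹ with hv
      have hpp := p_sq p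
      refine ⟨(α + k) * (β + k) * z * v ^ 2, (β + k) * z * v ^ 2, (α + k) * z * v ^ 2,
        -((α + k) * (β + k) * z * v ^ 3), fun x y c d => ?_⟩
      beta_reduce
      rw [(inv_shift p k hk c).1, (inv_shift p k hk d).1, ← hv]
      linear_combination (z * x * y * v ^ 2 - z * ((α + k) * y + (β + k) * x + p * x * y) * (c + d) * v ^ 3
        + z * (α + k + p * x) * (β + k + p * y) * c * d * v ^ 4) * hpp
    refine Af.congr (fun x y c d => ?_) (ih.mul h1)
    unfold tm
    rw [prod_range_succ]

theorem Hs_af (α β z : R p) : Af (fun x y c d => Hs p α β z x y c d) := by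
  have h : ∀ N : ℕ, N ≤ p → Af (fun x y c d => ∑ k ∈ range N, tm p α β z x y c d k) := by
    intro N
    induction N with
    | zero => intro _; simp only [range_zero, sum_empty]; exact Af.const 0
    | succ N ih =>
      intro hN
      refine Af.congr (fun x y c d => ?_) ((ih (by omega)).add (tm_af p α β z N (by omega)))
      rw [sum_range_succ]
  exact h p le_rfl

/-- the affine form of the sums -/
theorem aff (α β z : R p) : ∃ A B C : R p, ∀ x y c d,
    Hs p α β z x y c d = Hs p α β z 0 0 0 0 + p * (x * A + y * B + (c + d) * C) := by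
  obtain ⟨a, A, B, C, h⟩ := Hs_af p α β z
  refine ⟨A, B, C, fun x y c d => ?_⟩
  have h1 := h x y c d
  have h2 := h 0 0 0 0
  beta_reduce at h1 h2
  rw [h1, h2]
  ring

theorem tm_symm (α β z x y c d : R p) (k : ℕ) : tm p α β z x y c d k = tm p β α z y x c d k := by
  unfold tm
  exact prod_congr rfl fun i _ => by ring

theorem Hs_symm (α β z x y c d : R p) : Hs p α β z x y c d = Hs p β α z y x c d :=
  sum_congr rfl fun k _ => tm_symm p α β z x y c d k

/-- terminating sums are sums of products of binomial coefficients -/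
theorem tm_bin (α β z x y : R p) (N M : ℕ) (h1 : α + p * x = -(N : R p))
    (h2 : β + p * y = (M : R p) + 1) (k : ℕ) (hk : k < p) :
    tm p α β z x y 0 0 k = ((N.choose k : ℕ) : R p) * (((M + k).choose k : ℕ) : R p) * (-z) ^ k := by
  induction k with
  | zero => simp [tm]
  | succ k ih =>
    have ih := ih (by omega)
    have h3 : tm p α β z x y 0 0 (k + 1) = tm p α β z x y 0 0 k *
        ((α + k + p * x) * (β + k + p * y) * z * (((k : R p) + 1) + p * 0)⁻¹ *
          (((k : R p) + 1) + p * 0)⁻¹) := by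
      unfold tm
      rw [prod_range_succ]
    obtain ⟨-, h4⟩ := inv_shift p k hk 0
    rw [h3, ih, mul_zero, add_zero]
    have h5 : ((N.choose (k + 1) : ℕ) : R p) * ((k : R p) + 1) =
        ((N.choose k : ℕ) : R p) * ((N : R p) - k) := by
      have h6 := Nat.choose_succ_right_eq N k
      rcases le_or_gt k N with h7 | h7
      · have h8 := congrArg (Nat.cast (R := R p)) h6
        push_cast [Nat.cast_sub h7] at h8
        exact h8
      · rw [Nat.choose_eq_zero_of_lt h7, Nat.choose_eq_zero_of_lt (by omega : N < k + 1)]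
        push_cast
        ring
    have h6 : (((M + (k + 1)).choose (k + 1) : ℕ) : R p) * ((k : R p) + 1) =
        (((M + k).choose k : ℕ) : R p) * ((M : R p) + k + 1) := by
      have h7 := Nat.add_one_mul_choose_eq (M + k) k
      have h8 := congrArg (Nat.cast (R := R p)) h7
      push_cast at h8
      rw [← add_assoc]
      linear_combination -h8
    have e1 : α + k + p * x = -((N : R p) - k) := by linear_combination h1
    have e2 : β + k + p * y = (M : R p) + k + 1 := by linear_combination h2
    rw [e1, e2, pow_succ (-z)]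
    set v := ((k : R p) + 1)⁻¹
    have hu : IsUnit (((k : R p) + 1) ^ 2) := (IsUnit.of_mul_eq_one _ h4).pow 2
    apply hu.mul_left_cancel
    set C1 := ((N.choose k : ℕ) : R p)
    set C2 := (((M + k).choose k : ℕ) : R p)
    set D1 := ((N.choose (k + 1) : ℕ) : R p)
    set D2 := (((M + (k + 1)).choose (k + 1) : ℕ) : R p)
    have h9 : ((k : R p) + 1) ^ 2 * (D1 * D2) = C1 * C2 * (((N : R p) - k) * ((M : R p) + k + 1)) := by
      linear_combination (((k : R p) + 1) * D2) * h5 + (C1 * ((N : R p) - k)) * h6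
    linear_combination (-(C1 * C2 * (-z) ^ k * (((N : R p) - k) * ((M : R p) + k + 1)) * z) *
      (((k : R p) + 1) * v + 1)) * h4 + ((-z) ^ k * z) * h9

theorem Hs_bin (α β z x y : R p) (N M : ℕ) (h1 : α + p * x = -(N : R p))
    (h2 : β + p * y = (M : R p) + 1) :
    Hs p α β z x y 0 0 = ∑ k ∈ range p, ((N.choose k : ℕ) : R p) * (((M + k).choose k : ℕ) : R p) *
      (-z) ^ k :=
  sum_congr rfl fun k hk => tm_bin p α β z x y N M h1 h2 k (mem_range.1 hk)

theorem Hs_G (α β z x y : R p) (N M : ℕ) (hN : N < p) (h1 : α + p * x = -(N : R p))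
    (h2 : β + p * y = (M : R p) + 1) : Hs p α β z x y 0 0 = G N M (-z) := by
  rw [Hs_bin p α β z x y N M h1 h2]
  unfold G
  rw [← sum_subset (range_subset_range.2 (by omega : N + 1 ≤ p))]
  intro k _ hk
  rw [mem_range] at hk
  rw [Nat.choose_eq_zero_of_lt (by omega : N < k)]
  push_cast
  ring

end

end Pool.Agent.Q278.SX
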