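import Pool.Agent.Q278.SX.B
import Pool.Agent.Q278.YG
import Pool.Agent.Q278.YJ

/-!
# Splitting at `p`, half-integral parameters, binomial coefficients modulo `p²`
-/

set_option autoImplicit false

namespace Pool.Agent.Q278.SX

open Finset Pool.Agent.Q267.CDE Q278.PI Pool.Agent.Q278.YC

variable {p : ℕ} [hp : Fact p.Prime]

/-- a terminating sum of degree at least `p` -/
theorem G_split (N M : ℕ) (hN : N < p) (α β z x y : R p) (h1 : α + p * x = -(N : R p))
    (h2 : β + p * y = (M : R p) + p + 1) :
    G (p + N) M (-z) = ∑ k ∈ range p, (((p + N).choose k : ℕ) : R p) * (((M + k).choose k : ℕ) : R p) *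
      (-z) ^ k + (((p + N).choose p : ℕ) : R p) * (((M + p).choose p : ℕ) : R p) * (-z) ^ p *
        Hs p α β z x y 1 1 := by
  have key : ∀ j : ℕ, j < p → (((p + N).choose (p + j) : ℕ) : R p) *
      (((M + (p + j)).choose (p + j) : ℕ) : R p) * (-z) ^ (p + j) =
      (((p + N).choose p : ℕ) : R p) * (((M + p).choose p : ℕ) : R p) * (-z) ^ p *
        tm p α β z x y 1 1 j := by
    intro j
    induction j with
    | zero => intro _; simp [tm]
    | succ j ih =>
      intro hj
      have ih := ih (by omega)
      have h3 : tm p α β z x y 1 1 (j + 1) = tm p α β z x y 1 1 j *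
          ((α + j + p * x) * (β + j + p * y) * z * (((j : R p) + 1) + p * 1)⁻¹ *
            (((j : R p) + 1) + p * 1)⁻¹) := by
        unfold tm
        rw [prod_range_succ]
      obtain ⟨h4, h5⟩ := inv_shift p j hj 1
      have hpp := p_sq p
      have h6 : (((j : R p) + 1) + p * 1) * (((j : R p) + 1) + p * 1)⁻¹ = 1 := by
        rw [h4]
        linear_combination (1 - p * 1 * ((j : R p) + 1)⁻¹) * h5 - (((j : R p) + 1)⁻¹ ^ 2) * hpp
      have h7 : (((p + N).choose (p + (j + 1)) : ℕ) : R p) * ((j : R p) + 1 + p * 1) =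
          (((p + N).choose (p + j) : ℕ) : R p) * ((N : R p) - j) := by
        have h8 := Nat.choose_succ_right_eq (p + N) (p + j)
        rcases le_or_gt j N with h9 | h9
        · have h10 := congrArg (Nat.cast (R := R p)) h8
          rw [show p + N - (p + j) = N - j by omega] at h10
          push_cast [Nat.cast_sub h9] at h10
          rw [show p + (j + 1) = p + j + 1 by ring]
          linear_combination h10
        · rw [Nat.choose_eq_zero_of_lt (by omega : p + N < p + j),
            Nat.choose_eq_zero_of_lt (by omega : p + N < p + (j + 1))]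
          push_cast
          ring
      have h8 : (((M + (p + (j + 1))).choose (p + (j + 1)) : ℕ) : R p) * ((j : R p) + 1 + p * 1) =
          (((M + (p + j)).choose (p + j) : ℕ) : R p) * ((M : R p) + p + j + 1) := by
        have h9 := congrArg (Nat.cast (R := R p)) (Nat.add_one_mul_choose_eq (M + (p + j)) (p + j))
        push_cast at h9
        rw [show M + (p + (j + 1)) = M + (p + j) + 1 by ring, show p + (j + 1) = p + j + 1 by ring]
        linear_combination -h9
      have e1 : α + j + p * x = -((N : R p) - j) := by linear_combination h1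
      have e2 : β + j + p * y = (M : R p) + p + j + 1 := by linear_combination h2
      rw [h3, e1, e2, show p + (j + 1) = p + j + 1 by ring, pow_succ (-z)]
      rw [show p + (j + 1) = p + j + 1 by ring] at h7 h8
      set v := ((j : R p) + 1 + p * 1)⁻¹
      have hu : IsUnit (((j : R p) + 1 + p * 1) ^ 2) := (IsUnit.of_mul_eq_one _ h6).pow 2
      apply hu.mul_left_cancel
      set C1 := (((p + N).choose (p + j) : ℕ) : R p)
      set C2 := (((M + (p + j)).choose (p + j) : ℕ) : R p)
      set D1 := (((p + N).choose (p + j + 1) : ℕ) : R p)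
      set D2 := (((M + (p + j + 1)).choose (p + j + 1) : ℕ) : R p)
      set W := (((p + N).choose p : ℕ) : R p) * (((M + p).choose p : ℕ) : R p) * (-z) ^ p
      set t := tm p α β z x y 1 1 j
      set s := (j : R p) + 1 + p * 1
      linear_combination (D2 * s * (-z) ^ (p + j) * (-z)) * h7
        + (C1 * ((N : R p) - j) * (-z) ^ (p + j) * (-z)) * h8
        + (((N : R p) - j) * ((M : R p) + p + j + 1) * (-z)) * ih
        - (W * t * (-((N : R p) - j)) * ((M : R p) + p + j + 1) * z * (s * v + 1)) * h6
  unfold G
  rw [show p + N + 1 = p + (N + 1) by ring, sum_range_add]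
  congr 1
  have h3 : ∀ j ∈ range (N + 1), (((p + N).choose (p + j) : ℕ) : R p) *
      (((M + (p + j)).choose (p + j) : ℕ) : R p) * (-z) ^ (p + j) =
      (((p + N).choose p : ℕ) : R p) * (((M + p).choose p : ℕ) : R p) * (-z) ^ p *
        tm p α β z x y 1 1 j := by
    intro j hj
    rw [mem_range] at hj
    exact key j (by omega)
  rw [sum_congr rfl h3, ← mul_sum]
  congr 1
  unfold Hs
  rw [← sum_subset (range_subset_range.2 (by omega : N + 1 ≤ p))]
  intro j _ hj
  rw [mem_range] at hj
  unfold tm
  apply prod_eq_zero (mem_range.2 (by omega : N < j))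
  have : α + N + p * x = 0 := by linear_combination h1
  rw [this]
  ring

/-- `C(p + N, p) = 1 + p H_N` -/
theorem choose_one (N : ℕ) (hN : N < p) : (((p + N).choose p : ℕ) : R p) = 1 + p * D p N := by
  induction N with
  | zero => simp [D]
  | succ N ih =>
    have ih := ih (by omega)
    obtain ⟨-, h5⟩ := inv_shift p N hN 0
    have h1 := congrArg (Nat.cast (R := R p)) (Nat.add_one_mul_choose_eq (p + N) N)
    have e1 : (p + N).choose N = (p + N).choose p := by
      rw [← Nat.choose_symm (by omega : N ≤ p + N)]
      congr 1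
      omega
    have e2 : (p + N + 1).choose (N + 1) = (p + (N + 1)).choose p := by
      rw [← Nat.choose_symm (by omega : N + 1 ≤ p + N + 1), show p + N + 1 = p + (N + 1) by ring]
      congr 1
      omega
    rw [e1, e2] at h1
    push_cast at h1
    rw [ih] at h1
    have hpp := p_sq p
    have hu : IsUnit ((N : R p) + 1) := IsUnit.of_mul_eq_one _ h5
    apply hu.mul_left_cancel
    rw [D_succ]
    push_cast
    set v := ((N : R p) + 1)⁻¹
    linear_combination -h1 + D p N * hpp - p * h5

theorem D_refl {r : ℕ} (hr : p = 6 * r + 1) (j : ℕ) (hj : j ≤ 3 * r) :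
    (p : R p) * D p (3 * r + j) = p * D p (3 * r - j) := by
  induction j with
  | zero => rfl
  | succ j ih =>
    have ih := ih (by omega)
    obtain ⟨m, hm⟩ : ∃ m, 3 * r - j = m + 1 := ⟨3 * r - j - 1, by omega⟩
    rw [hm, D_succ] at ih
    rw [← add_assoc, D_succ, show 3 * r - (j + 1) = m by omega, mul_add, ih]
    obtain ⟨-, h5⟩ := inv_shift p m (by omega) 0
    obtain ⟨-, h6⟩ := inv_shift p (3 * r + j) (by omega) 0
    have h3 : 3 * r + j + 1 + (m + 1) = p := by omega
    have h4 := congrArg (Nat.cast : ℕ → R p) h3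
    push_cast at h4 h5 h6 ⊢
    have hpp := p_sq p
    set v := ((m : R p) + 1)⁻¹
    set w := (3 * (r : R p) + j + 1)⁻¹
    linear_combination (-p * w) * h5 + p * w * v * h4 - p * v * h6 + w * v * hpp

theorem D_last {r : ℕ} (hr : p = 6 * r + 1) : (p : R p) * D p (p - 1) = 0 := by
  have h := D_refl hr (3 * r) le_rfl
  rw [show 3 * r + 3 * r = p - 1 by omega, Nat.sub_self] at h
  rw [h]
  simp [D]

theorem choose_two0 {r : ℕ} (hr : p = 6 * r + 1) : (((p + p).choose p : ℕ) : R p) = 2 := by
  have h2p := hp.out.two_le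
  have h1 := choose_one (p := p) (p - 1) (by omega)
  rw [D_last hr, add_zero] at h1
  have h2 : (p + p).choose p = 2 * (p + (p - 1)).choose p := by
    obtain ⟨q, hq⟩ : ∃ q, p = q + 1 := ⟨p - 1, by omega⟩
    have h3 : (p + p).choose p = (q + 1 + q).choose q + (q + 1 + q).choose (q + 1) := by
      rw [show p + p = (q + 1 + q) + 1 by omega]
      conv_lhs => rw [hq]
      exact Nat.choose_succ_succ _ _
    have h4 : (q + 1 + q).choose q = (q + 1 + q).choose (q + 1) := by
      rw [← Nat.choose_symm (by omega : q ≤ q + 1 + q)]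
      congr 1
      omega
    rw [h3, h4, show p + (p - 1) = q + 1 + q by omega]
    conv_rhs => rw [hq]
    ring
  rw [h2]
  push_cast
  rw [h1]
  ring

/-- `C(2p + N, p) = 2 (1 + p H_N)` -/
theorem choose_two {r : ℕ} (hr : p = 6 * r + 1) (N : ℕ) (hN : N < p) :
    (((p + N + p).choose p : ℕ) : R p) = 2 * (1 + p * D p N) := by
  induction N with
  | zero => rw [add_zero, choose_two0 hr]; simp [D]
  | succ N ih =>
    have ih := ih (by omega)
    obtain ⟨h4, h5⟩ := inv_shift p N hN 1
    have hpp := p_sq p
    have h6 : (((N : R p) + 1) + p * 1) * (((N : R p) + 1) + p * 1)⁻¹ = 1 := by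
      rw [h4]
      linear_combination (1 - p * 1 * ((N : R p) + 1)⁻¹) * h5 - (((N : R p) + 1)⁻¹ ^ 2) * hpp
    have h1 := congrArg (Nat.cast (R := R p)) (Nat.add_one_mul_choose_eq (p + N + p) (p + N))
    have e1 : (p + N + p).choose (p + N) = (p + N + p).choose p := by
      rw [← Nat.choose_symm (by omega : p + N ≤ p + N + p)]
      congr 1
      omega
    have e2 : (p + N + p + 1).choose (p + N + 1) = (p + (N + 1) + p).choose p := by
      rw [← Nat.choose_symm (by omega : p + N + 1 ≤ p + N + p + 1),
        show p + N + p + 1 = p + (N + 1) + p by ring]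
      congr 1
      omega
    rw [e1, e2] at h1
    push_cast at h1
    rw [ih] at h1
    have hu : IsUnit ((N : R p) + 1 + p * 1) := IsUnit.of_mul_eq_one _ h6
    apply hu.mul_left_cancel
    rw [D_succ]
    push_cast
    set v := ((N : R p) + 1)⁻¹
    linear_combination -h1 + (2 * D p N - 2 * v) * hpp - 2 * p * h5

end Pool.Agent.Q278.SX
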