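import Pool.Agent.Q278.SX.C

/-!
# From rational sums to sums modulo `p²`
-/

set_option autoImplicit false

namespace Pool.Agent.Q278.SX

open Finset Pool.Agent.Q267.CDE Q278.PI Pool.Agent.Q278.YC

variable {p : ℕ} [hp : Fact p.Prime] {r : ℕ}

theorem tm_PO (num den : ℕ → ℤ) (α β z x y c d : R p)
    (hd : ∀ i, i + 1 < p → ¬ (p : ℤ) ∣ den i)
    (h : ∀ i, i + 1 < p → (α + i + p * x) * (β + i + p * y) * z * (den i : ℤ) =
      (num i : ℤ) * ((i : R p) + 1 + p * c) * ((i : R p) + 1 + p * d))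
    (k : ℕ) (hk : k < p) : res2 p (PO p num den k) = tm p α β z x y c d k := by
  have h1 := PO_res p num den k fun i hi => hd i (by omega)
  have h2 : tm p α β z x y c d k * ∏ i ∈ range k, ((den i : ℤ) : R p) =
      ∏ i ∈ range k, ((num i : ℤ) : R p) := by
    unfold tm
    rw [← prod_mul_distrib]
    refine prod_congr rfl fun i hi => ?_
    rw [mem_range] at hi
    have hpp := p_sq p
    obtain ⟨h4, h5⟩ := inv_shift p i (by omega) c
    obtain ⟨h6, -⟩ := inv_shift p i (by omega) d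
    have e1 : (((i : R p) + 1) + p * c) * (((i : R p) + 1) + p * c)⁻¹ = 1 := by
      rw [h4]
      linear_combination (1 - p * c * ((i : R p) + 1)⁻¹) * h5 - (c ^ 2 * ((i : R p) + 1)⁻¹ ^ 2) * hpp
    have e2 : (((i : R p) + 1) + p * d) * (((i : R p) + 1) + p * d)⁻¹ = 1 := by
      rw [h6]
      linear_combination (1 - p * d * ((i : R p) + 1)⁻¹) * h5 - (d ^ 2 * ((i : R p) + 1)⁻¹ ^ 2) * hpp
    have h3 := h i (by omega)
    set u := (((i : R p) + 1) + p * c)⁻¹
    set v := (((i : R p) + 1) + p * d)⁻¹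
    linear_combination (u * v) * h3 + (((num i : ℤ) : R p) * ((i : R p) + 1 + p * d) * v) * e1 +
      ((num i : ℤ) : R p) * e2
  have hu : IsUnit (∏ i ∈ range k, ((den i : ℤ) : R p)) :=
    unit_prod k _ fun i hi => isUnit_int p _ (hd i (by omega))
  exact hu.mul_right_cancel (h1.trans h2.symm)

/-- numerators -/
def nH (n : ℕ) (B : ℤ) (i : ℕ) : ℤ := ((n : ℤ) - i) * (B + 2 * i) * 9

/-- denominators -/
def dH (i : ℕ) : ℤ := 32 * (i + 1) ^ 2

theorem dH_nd (hr : p = 6 * r + 1) (i : ℕ) (hi : i + 1 < p) : ¬ (p : ℤ) ∣ dH i := by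
  have h2 : ¬ (p : ℤ) ∣ 2 := small_nd hr 2 (by norm_num) (by norm_num)
  have h16 := nd16 (p := p) hr
  have h1 : ¬ (p : ℤ) ∣ ((i : ℤ) + 1) := by
    apply not_dvd_small
    · omega
    · omega
    · omega
  unfold dH
  apply not_dvd_mul
  · have := not_dvd_mul h16 h2
    norm_num at this
    exact this
  · rw [pow_two]
    exact not_dvd_mul h1 h1

/-- sums with a half-integral parameter -/
noncomputable def SE (p : ℕ) [Fact p.Prime] (n : ℕ) (B : ℤ) : O p :=
  ∑ k ∈ range p, PO p (nH n B) dH k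

theorem SE_coe (hr : p = 6 * r + 1) (n : ℕ) (hn : n < p) (B : ℤ) :
    ((SE p n B : O p) : ℚ) = Su (co n ((B : ℚ) / 2)) (9 / 16) (n + 1) := by
  rw [← Su_stable (co n ((B : ℚ) / 2)) (9 / 16) (n + 1) p (by omega)
    fun k hk => co_vanish _ _ _ (by omega)]
  unfold SE Su
  rw [AddSubmonoidClass.coe_finsetSum]
  refine sum_congr rfl fun k hk => ?_
  rw [mem_range] at hk
  rw [PO_coe p _ _ k fun i hi => dH_nd hr i (by omega)]
  unfold co
  have hpow : (9 / 16 : ℚ) ^ k = ∏ _i ∈ range k, (9 / 16 : ℚ) := by rw [prod_const, card_range]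
  rw [hpow, ← prod_mul_distrib]
  refine prod_congr rfl fun i _ => ?_
  have h1 : ((i : ℚ) + 1) ≠ 0 := by positivity
  unfold nH dH
  push_cast
  field_simp
  ring

theorem SE_res (hr : p = 6 * r + 1) (n : ℕ) (B : ℤ) (α β z x y : R p)
    (h1 : α + p * x = -(n : R p)) (h2 : 2 * (β + p * y) = (B : R p)) (h3 : 16 * z = -9) :
    res2 p (SE p n B) = Hs p α β z x y 0 0 := by
  unfold SE Hs
  rw [map_sum]
  refine sum_congr rfl fun k hk => ?_
  rw [mem_range] at hk
  refine tm_PO _ _ α β z x y 0 0 (fun i hi => dH_nd hr i hi) (fun i _ => ?_) k hk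
  unfold nH dH
  push_cast
  have e1 : α + i + p * x = -((n : R p) - i) := by linear_combination h1
  rw [e1]
  linear_combination (-16 * ((n : R p) - i) * z * ((i : R p) + 1) ^ 2) * h2
    - (((n : R p) - i) * ((B : R p) + 2 * i) * ((i : R p) + 1) ^ 2) * h3

/-- the Legendre values at `5/4` -/
noncomputable def LO (p : ℕ) [Fact p.Prime] (n : ℕ) : O p :=
  ∑ k ∈ range (n + 1), ((n.choose k : ℕ) : O p) * (((n + k).choose k : ℕ) : O p) * (invI p 8) ^ k

theorem eight_nd' (hr : p = 6 * r + 1) : ¬ (p : ℤ) ∣ 8 := by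
  have h2 : ¬ (p : ℤ) ∣ 2 := small_nd hr 2 (by norm_num) (by norm_num)
  have := not_dvd_mul h2 (not_dvd_mul h2 h2)
  norm_num at this
  exact this

theorem co_choose (n k : ℕ) : co n ((n : ℚ) + 1) k =
    ((n.choose k : ℕ) : ℚ) * (((n + k).choose k : ℕ) : ℚ) := by
  induction k with
  | zero => simp [co]
  | succ k ih =>
    have h0 : ((k : ℚ) + 1) ^ 2 ≠ 0 := by positivity
    have h1 := co_succ (n : ℚ) ((n : ℚ) + 1) k
    have h5 : ((n.choose (k + 1) : ℕ) : ℚ) * ((k : ℚ) + 1) =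
        ((n.choose k : ℕ) : ℚ) * ((n : ℚ) - k) := by
      have h6 := Nat.choose_succ_right_eq n k
      rcases le_or_gt k n with h7 | h7
      · have h8 := congrArg (Nat.cast (R := ℚ)) h6
        push_cast [Nat.cast_sub h7] at h8
        exact h8
      · rw [Nat.choose_eq_zero_of_lt h7, Nat.choose_eq_zero_of_lt (by omega : n < k + 1)]
        push_cast
        ring
    have h6 : (((n + (k + 1)).choose (k + 1) : ℕ) : ℚ) * ((k : ℚ) + 1) =
        (((n + k).choose k : ℕ) : ℚ) * ((n : ℚ) + k + 1) := by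
      have h8 := congrArg (Nat.cast (R := ℚ)) (Nat.add_one_mul_choose_eq (n + k) k)
      push_cast at h8
      rw [← add_assoc]
      linear_combination -h8
    apply mul_right_cancel₀ h0
    set D2 := (((n + (k + 1)).choose (k + 1) : ℕ) : ℚ)
    linear_combination h1 + (((n : ℚ) - k) * (n + 1 + k)) * ih - (D2 * ((k : ℚ) + 1)) * h5
      - (((n.choose k : ℕ) : ℚ) * ((n : ℚ) - k)) * h6

theorem LO_coe (hr : p = 6 * r + 1) (n : ℕ) : ((LO p n : O p) : ℚ) = P (1 / 8) n := by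
  unfold LO P Su
  rw [AddSubmonoidClass.coe_finsetSum]
  refine sum_congr rfl fun k _ => ?_
  rw [co_choose]
  push_cast
  rw [invI_coe p 8 (eight_nd' hr)]
  norm_num

theorem LO_res (n : ℕ) : res2 p (LO p n) = G n n (res2 p (invI p 8)) := by
  unfold LO G
  rw [map_sum]
  refine sum_congr rfl fun k _ => ?_
  rw [map_mul, map_mul, map_pow, map_natCast, map_natCast]

theorem LO_even (hr : p = 6 * r + 1) (n : ℕ) (hn : n < p) :
    LO p (2 * n) = SE p n (2 * n + 1) := by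
  apply Subtype.ext
  rw [LO_coe hr, SE_coe hr n hn, (P_parity (1 / 8) n).1]
  unfold E
  norm_num
  congr 2
  ring

theorem LO_odd (hr : p = 6 * r + 1) (n : ℕ) (hn : n < p) :
    4 * LO p (2 * n + 1) = 5 * SE p n (2 * n + 3) := by
  apply Subtype.ext
  have h1 := LO_coe (p := p) hr (2 * n + 1)
  have h2 := SE_coe (p := p) hr n hn (2 * n + 3)
  have h3 : ((4 * LO p (2 * n + 1) : O p) : ℚ) = 4 * ((LO p (2 * n + 1) : O p) : ℚ) := rfl
  have h4 : ((5 * SE p n (2 * n + 3) : O p) : ℚ) = 5 * ((SE p n (2 * n + 3) : O p) : ℚ) := rfl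
  rw [h3, h4, h1, h2, (P_parity (1 / 8) n).2]
  unfold U
  have e1 : (4 * (1 / 8 : ℚ) * (1 + 1 / 8)) = 9 / 16 := by norm_num
  have e2 : (((2 * (n : ℤ) + 3 : ℤ) : ℚ) / 2) = (n : ℚ) + 3 / 2 := by push_cast; ring
  rw [e1, e2]
  ring

end Pool.Agent.Q278.SX
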