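import Pool.Agent.Q278.SX.D
import Pool.Agent.Q278.YL

/-!
# The value of the two sums modulo `p²`
-/

set_option autoImplicit false

namespace Pool.Agent.Q278.SX

open Finset Pool.Agent.Q267.CDE Q278.PI Pool.Agent.Q278.YC

variable {p : ℕ} [hp : Fact p.Prime] {r : ℕ}

/-- the strange value at `t = p`, with its cube root of unity -/
theorem FO_first (hr : p = 6 * r + 1) (z : ZMod p) (hz : z * z = -1 - z) (y : R p)
    (hy : 6 * y = 1) : ∃ κ e : R p, κ = 1 + p * e ∧ κ * (-64) ^ r = 27 ^ r ∧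
      res2 p (FO p p) = κ * (CC p r * (1 + p * (y * D p (2 * r)))) := by
  obtain ⟨κ, e, hκ, hk⟩ := exists_kappa hr z hz
  refine ⟨κ, e, hκ, hk, ?_⟩
  have h1 := PO_res p (fun j => 27 * (6 * (j : ℤ) + 2)) (fun j => 16 * (6 * (j : ℤ) + 1)) r
    fun i hi => sixteen_one hr i hi
  rw [← FO_p hr] at h1
  push_cast at h1
  have k1 := PO_res p (fun j => -4 * (6 * (j : ℤ) + 2)) (fun j => 6 * (j : ℤ) + 1) r
    fun i hi => six_nd hr i hi
  have g1 : res2 p (PO p (fun j => -4 * (6 * (j : ℤ) + 2)) (fun j => 6 * (j : ℤ) + 1) r) =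
      CC p r * (1 + p * (y * D p (2 * r))) := by
    apply X1_eval hr y hy
    push_cast at k1
    exact k1
  rw [g1] at k1
  push_cast at k1
  rw [← pow_prod (p := p) 27, ← pow_prod (p := p) 16] at h1
  rw [← pow_prod (p := p) (-4)] at k1
  have e1 : (-64 : R p) ^ r = 16 ^ r * (-4) ^ r := by rw [← mul_pow]; norm_num
  rw [e1] at hk
  have u1 : IsUnit ((16 : R p) ^ r * ∏ i ∈ range r, (6 * (i : R p) + 1)) := by
    refine IsUnit.mul (IsUnit.pow _ ?_) (unit_prod _ _ fun i hi => unit_six hr i hi)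
    have := (unit_four hr).pow 2
    norm_num at this
    exact this
  apply u1.mul_right_cancel
  linear_combination h1 - κ * 16 ^ r * k1 - (∏ i ∈ range r, (6 * (i : R p) + 2)) * hk

/-- Fermat quotients -/
theorem fermat (x : R p) (hx : IsUnit x) : ∃ q : R p, x ^ (p - 1) = 1 + p * q := by
  have h1 : red p (x ^ (p - 1)) = red p 1 := by
    rw [map_pow, map_one]
    apply ZMod.pow_card_sub_one_eq_one
    exact (hx.map (red p)).ne_zero
  obtain ⟨q, hq⟩ := red_eq_of p _ _ h1
  exact ⟨q, hq⟩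

theorem unit_num (hr : p = 6 * r + 1) : IsUnit (2 : R p) ∧ IsUnit (3 : R p) ∧ IsUnit (5 : R p) := by
  have h2 := isUnit_int p 2 (small_nd hr 2 (by norm_num) (by norm_num))
  have h3 := isUnit_int p 3 (small_nd hr 3 (by norm_num) (by norm_num))
  have h5 := isUnit_int p 5 (small_nd hr 5 (by norm_num) (by norm_num))
  push_cast at h2 h3 h5
  exact ⟨h2, h3, h5⟩

set_option maxHeartbeats 1000000 in
/-- **both sums are congruent to the central binomial coefficient modulo `p²`** -/
theorem values (hr : p = 6 * r + 1) (y e : R p) (hy : 6 * y = 1) (he : 8 * e = 1) :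
    Hs p (2 * y) y (-36 * e ^ 2) 0 0 0 0 = CC p r ∧
    Hs p (4 * y) (5 * y) (-36 * e ^ 2) 0 0 0 0 = CC p r := by
  obtain ⟨z3, hz3⟩ := exists_z (p := p) hr
  have h2p := hp.out.two_le
  have hr0 : 0 < r := by omega
  have hpp := p_sq p
  have hcp : (p : R p) = 6 * r + 1 := castp hr
  obtain ⟨u2, u3, u5⟩ := unit_num (p := p) hr
  have hz : (16 : R p) * (-36 * e ^ 2) = -9 := by linear_combination (-9 * (8 * e + 1)) * he
  obtain ⟨SA, SB, SC, hS⟩ := aff p (2 * y) y (-36 * e ^ 2)
  obtain ⟨UA, UB, UC, hU⟩ := aff p (4 * y) (5 * y) (-36 * e ^ 2)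
  obtain ⟨TA, TB, TC, hT⟩ := aff p (4 * y) (2 * y) (-e)
  set S0 := Hs p (2 * y) y (-36 * e ^ 2) 0 0 0 0 with hS0
  set U0 := Hs p (4 * y) (5 * y) (-36 * e ^ 2) 0 0 0 0 with hU0
  set T0 := Hs p (4 * y) (2 * y) (-e) 0 0 0 0 with hT0
  have hinv : res2 p (invI p 8) = e := by
    have h := res2_invI p 8 (eight_nd' hr)
    push_cast at h
    linear_combination (-(res2 p (invI p 8))) * he + e * h
  -- Legendre values
  have t1 : G (2 * r) (2 * r) e = T0 + p * (2 * y * TA - 2 * y * TB) := by
    have h := Hs_G p (2 * y) (4 * y) (-e) (-2 * y) (2 * y) (2 * r) (2 * r) (by omega)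
      (by push_cast; rw [hcp]; linear_combination (-2 * r : R p) * hy)
      (by push_cast; rw [hcp]; linear_combination (1 + 2 * r : R p) * hy)
    rw [neg_neg] at h
    rw [← h, Hs_symm, hT]
    ring
  have t2 : G (4 * r) (4 * r) e = T0 + p * (-4 * y * TA + 4 * y * TB) := by
    have h := Hs_G p (4 * y) (2 * y) (-e) (-4 * y) (4 * y) (4 * r) (4 * r) (by omega)
      (by push_cast; rw [hcp]; linear_combination (-4 * r : R p) * hy)
      (by push_cast; rw [hcp]; linear_combination (1 + 4 * r : R p) * hy)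
    rw [neg_neg] at h
    rw [← h, hT]
    ring
  have s1 : G (2 * r) (2 * r) e = S0 + p * (y * SA - y * SB) := by
    have h := congrArg (res2 p) (LO_even (p := p) hr r (by omega))
    rw [LO_res, hinv, SE_res hr r (2 * r + 1) y (2 * y) (-36 * e ^ 2) (-y) y
      (by rw [hcp]; linear_combination (-r : R p) * hy)
      (by push_cast; rw [hcp]; linear_combination (1 + 2 * r : R p) * hy) hz] at h
    rw [h, Hs_symm, hS]
    ring
  have s2 : G (4 * r) (4 * r) e = S0 + p * (-2 * y * SA + 2 * y * SB) := by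
    have h := congrArg (res2 p) (LO_even (p := p) hr (2 * r) (by omega))
    rw [LO_res, hinv, SE_res hr (2 * r) _ (2 * y) y (-36 * e ^ 2) (-2 * y) (2 * y)
      (by push_cast; rw [hcp]; linear_combination (-2 * r : R p) * hy)
      (by push_cast; rw [hcp]; linear_combination (1 + 4 * r : R p) * hy) hz] at h
    rw [show 4 * r = 2 * (2 * r) by ring, h, hS]
    ring
  have v1 : 4 * G (p + 2 * r) (p + 2 * r) e = 5 * (U0 + p * (-4 * y * UA + 4 * y * UB)) := by
    have h := congrArg (res2 p) (LO_odd (p := p) hr (4 * r) (by omega))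
    have e4 : res2 p 4 = 4 := map_ofNat _ _
    have e5 : res2 p 5 = 5 := map_ofNat _ _
    rw [map_mul, map_mul, e4, e5, LO_res, hinv,
      SE_res hr (4 * r) _ (4 * y) (5 * y) (-36 * e ^ 2) (-4 * y) (4 * y)
      (by push_cast; rw [hcp]; linear_combination (-4 * r : R p) * hy)
      (by push_cast; rw [hcp]; linear_combination (3 + 8 * r : R p) * hy) hz] at h
    rw [show p + 2 * r = 2 * (4 * r) + 1 by omega, h, hU]
    ring
  -- Euler
  set Q := (1 + 36 * e ^ 2) ^ (3 * r) with hQ
  have v2 : U0 + p * (-4 * y * UA + y * UB) = Q * (S0 + p * (4 * y * SA - y * SB)) := by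
    have h1 := Hs_G p (4 * y) (5 * y) (-36 * e ^ 2) (-4 * y) y (4 * r) r (by omega)
      (by push_cast; rw [hcp]; linear_combination (-4 * r : R p) * hy)
      (by rw [hcp]; linear_combination (1 + r : R p) * hy)
    have h2 := Hs_G p y (2 * y) (-36 * e ^ 2) (-y) (4 * y) r (4 * r) (by omega)
      (by rw [hcp]; linear_combination (-r : R p) * hy)
      (by push_cast; rw [hcp]; linear_combination (1 + 4 * r : R p) * hy)
    rw [hU] at h1
    rw [Hs_symm, hS] at h2
    have h3 := euler (4 * r) r (by omega) (-(-36 * e ^ 2))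
    rw [← h1, ← h2, show 4 * r - r = 3 * r by omega, show 1 + -(-36 * e ^ 2) = 1 + 36 * e ^ 2 by ring,
      ← hQ] at h3
    linear_combination h3
  have v3 : U0 + p * (2 * y * UA - 5 * y * UB) = Q * (S0 + p * (-2 * y * SA + 5 * y * SB)) := by
    have h1 := Hs_G p (5 * y) (4 * y) (-36 * e ^ 2) (-5 * y) (2 * y) (5 * r) (2 * r) (by omega)
      (by push_cast; rw [hcp]; linear_combination (-5 * r : R p) * hy)
      (by push_cast; rw [hcp]; linear_combination (1 + 2 * r : R p) * hy)
    have h2 := Hs_G p (2 * y) y (-36 * e ^ 2) (-2 * y) (5 * y) (2 * r) (5 * r) (by omega)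
      (by push_cast; rw [hcp]; linear_combination (-2 * r : R p) * hy)
      (by push_cast; rw [hcp]; linear_combination (1 + 5 * r : R p) * hy)
    rw [Hs_symm, hU] at h1
    rw [hS] at h2
    have h3 := euler (5 * r) (2 * r) (by omega) (-(-36 * e ^ 2))
    rw [← h1, ← h2, show 5 * r - 2 * r = 3 * r by omega,
      show 1 + -(-36 * e ^ 2) = 1 + 36 * e ^ 2 by ring, ← hQ] at h3
    linear_combination h3
  have hpQ : (p : R p) * Q = p := by
    have h1 : Q = (10 * e) ^ (p - 1) := by
      rw [hQ, show p - 1 = 2 * (3 * r) by omega, pow_mul (10 * e)]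
      congr 1
      linear_combination (-(8 * e + 1)) * he
    have ue : IsUnit (10 * e) := by
      have h8 : IsUnit e := IsUnit.of_mul_eq_one 8 (by linear_combination he)
      have h10 : (10 : R p) = 2 * 5 := by norm_num
      rw [h10]
      exact (u2.mul u5).mul h8
    obtain ⟨q, hq⟩ := fermat (10 * e) ue
    rw [h1, hq]
    linear_combination q * hpp
  -- tails
  set H := D p (2 * r) with hH
  set w := e ^ p with hw
  have tl : G (p + 2 * r) (p + 2 * r) e = T0 + p * (8 * y * TA - 8 * y * TB) +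
      (1 + p * H) * (2 * (1 + p * H)) * w * (T0 + p * (14 * y * TA - 2 * y * TB + 2 * TC)) := by
    have h := G_split (p := p) (2 * r) (p + 2 * r) (by omega) (2 * y) (4 * y) (-e) (-2 * y) (14 * y)
      (by push_cast; rw [hcp]; linear_combination (-2 * r : R p) * hy)
      (by push_cast; rw [hcp]; linear_combination (3 + 14 * r : R p) * hy)
    rw [← Hs_bin p (2 * y) (4 * y) (-e) (-8 * y) (8 * y) (p + 2 * r) (p + 2 * r)
      (by push_cast; rw [hcp]; linear_combination (-1 - 8 * r : R p) * hy)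
      (by push_cast; rw [hcp]; linear_combination (2 + 8 * r : R p) * hy), neg_neg,
      choose_one (2 * r) (by omega), choose_two hr (2 * r) (by omega), Hs_symm p (2 * y),
      Hs_symm p (2 * y), hT, hT] at h
    rw [h]
    ring
  have e1 : T0 + p * (-10 * y * TA + 4 * y * TB) + (1 + p * D p (4 * r)) * (1 + p * D p (4 * r)) * w *
      (T0 + p * (-4 * y * TA + 10 * y * TB + 2 * TC)) =
      (1 + e) ^ p * (T0 + p * (-4 * y * TA + 10 * y * TB)) := by
    have h := G_split (p := p) (4 * r) (4 * r) (by omega) (4 * y) (2 * y) (-e) (-4 * y) (10 * y)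
      (by push_cast; rw [hcp]; linear_combination (-4 * r : R p) * hy)
      (by push_cast; rw [hcp]; linear_combination (2 + 10 * r : R p) * hy)
    rw [← Hs_bin p (4 * y) (2 * y) (-e) (-10 * y) (4 * y) (p + 4 * r) (4 * r)
      (by push_cast; rw [hcp]; linear_combination (-1 - 10 * r : R p) * hy)
      (by push_cast; rw [hcp]; linear_combination (1 + 4 * r : R p) * hy), neg_neg,
      show 4 * r + p = p + 4 * r by ring, choose_one (4 * r) (by omega), hT, hT] at h
    have h1 := euler (p + 4 * r) (4 * r) (by omega) e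
    have h2 := Hs_G p (4 * y) (2 * y) (-e) (-4 * y) (10 * y) (4 * r) (p + 4 * r) (by omega)
      (by push_cast; rw [hcp]; linear_combination (-4 * r : R p) * hy)
      (by push_cast; rw [hcp]; linear_combination (2 + 10 * r : R p) * hy)
    rw [neg_neg, hT] at h2
    rw [h, ← h2, Nat.add_sub_cancel] at h1
    linear_combination h1
  have hH4 : (p : R p) * D p (4 * r) = p * H := by
    have h := D_refl (p := p) hr r (by omega)
    rw [show 3 * r + r = 4 * r by ring, show 3 * r - r = 2 * r by omega] at h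
    exact h
  -- the strange values
  have hT00 : T0 = CC p r := by
    rw [← FO_zero hr z3 hz3]
    unfold FO
    rw [map_sum]
    refine (sum_congr rfl fun k hk => ?_).symm
    rw [mem_range] at hk
    refine tm_PO _ _ (4 * y) (2 * y) (-e) 0 0 0 0 (fun i hi => ?_) (fun i _ => ?_) k hk
    · have := dF_nd (p := p) hr i hi 0
      rwa [zero_mul] at this
    · unfold nF dF
      push_cast
      linear_combination (-9 * ((i : R p) + 1) ^ 2 * (4 * y + i) * (2 * y + i)) * he
        - ((i : R p) + 1) ^ 2 * (2 * (6 * y + 1) + 9 * i) * hy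
  have f1 : res2 p (FO p p) = T0 + p * (-2 * y * TA - 2 * y * TB - y * TC) := by
    have h : res2 p (FO p p) = Hs p (4 * y) (2 * y) (-e) (-2 * y) (-2 * y) (-y) 0 := by
      unfold FO
      rw [map_sum]
      refine sum_congr rfl fun k hk => ?_
      rw [mem_range] at hk
      refine tm_PO _ _ (4 * y) (2 * y) (-e) _ _ _ 0 (fun i hi => ?_) (fun i _ => ?_) k hk
      · have := dF_nd (p := p) hr i hi 1
        rwa [one_mul] at this
      · unfold nF dF
        push_cast
        set a := (i : R p) + 1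
        set A := 4 * y + (i : R p) + p * (-2 * y)
        set B := 2 * y + (i : R p) + p * (-2 * y)
        linear_combination (-9 * a * (a - p * y) * A * B) * he + (-12 * e * a * A * B * p
          - a * (a - p * y) * (3 * B * (2 - p) + 3 * A * (1 - p))
          + a * (a - p * y) * (6 * y - 1) * (1 - p) * (2 - p)) * hy
    rw [h, hT]
    ring
  -- powers
  obtain ⟨κ, e', hκ, hk, hF⟩ := FO_first hr z3 hz3 y hy
  obtain ⟨q2, hq2⟩ := fermat (2 : R p) u2
  obtain ⟨q3, hq3⟩ := fermat (3 : R p) u3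
  have hκq : (p : R p) * (2 * e') + p * (2 * q2) = p * q3 := by
    have h1 : (27 : R p) ^ r * 27 ^ r = 3 ^ (p - 1) := by
      rw [← mul_pow, show p - 1 = 6 * r by omega, pow_mul]
      norm_num
    have h2 : (-64 : R p) ^ r * (-64) ^ r = 2 ^ (p - 1) * 2 ^ (p - 1) := by
      rw [← mul_pow, ← mul_pow, show p - 1 = 6 * r by omega, pow_mul]
      norm_num
    rw [← hk] at h1
    rw [hq3] at h1
    rw [hq2] at h2
    have h3 : κ ^ 2 * (1 + p * q2) ^ 2 = 1 + p * q3 := by
      linear_combination h1 - κ ^ 2 * h2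
    rw [hκ] at h3
    linear_combination h3 - (e' ^ 2 * (1 + p * q2) ^ 2 + 4 * e' * q2 + q2 ^ 2 + 2 * p * e' * q2 ^ 2) * hpp
  have hw1 : w = e * (1 - p * (3 * q2)) := by
    have h1 : (8 : R p) ^ p * w = 1 := by
      rw [hw, ← mul_pow, he, one_pow]
    have h2 : (8 : R p) ^ p = 8 * (1 + p * q2) ^ 3 := by
      rw [← hq2, ← pow_mul, mul_comm (p - 1) 3, pow_mul, show (2 : R p) ^ 3 = 8 by norm_num,
        ← pow_succ', show p - 1 + 1 = p by omega]
    rw [h2] at h1
    have h3 : (8 * (1 + p * q2) ^ 3) * (e * (1 - p * (3 * q2))) = 1 := by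
      linear_combination (1 + p * q2) ^ 3 * (1 - p * (3 * q2)) * he
        + (-6 * q2 ^ 2 - 8 * p * q2 ^ 3 - 3 * p ^ 2 * q2 ^ 4) * hpp
    linear_combination (-w) * h3 + (e * (1 - p * (3 * q2))) * h1
  have hw2 : (1 + e) ^ p = 9 * e * (1 + p * (2 * q3 - 3 * q2)) := by
    have h1 : (1 + e) ^ p = 9 ^ p * w := by
      rw [hw, ← mul_pow]
      congr 1
      linear_combination -he
    have h2 : (9 : R p) ^ p = 9 * (1 + p * q3) ^ 2 := by
      rw [← hq3, ← pow_mul, mul_comm (p - 1) 2, pow_mul, show (3 : R p) ^ 2 = 9 by norm_num,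
        ← pow_succ', show p - 1 + 1 = p by omega]
    rw [h1, h2, hw1]
    linear_combination (9 * e * (q3 ^ 2 * (1 - p * (3 * q2)) - 6 * q2 * q3)) * hpp
  -- final linear algebra
  have hFF : (p : R p) * ((6 * e' + H) * T0 + 2 * (TA + TB) + TC) = 0 := by
    rw [hκ, ← hT00] at hF
    linear_combination 6 * f1 - 6 * hF - (6 * e' * y * H * T0) * hpp
      - (p * H * T0 + 2 * p * (TA + TB) + p * TC) * hy
  have hF2 : (p : R p) * ((3 * q3 - 6 * q2 + H) * T0 + 2 * (TA + TB) + TC) = 0 := by
    linear_combination hFF - 3 * T0 * hκq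
  have hE : (p : R p) * (-8 * (TA + TB) + 2 * TC + (2 * H + 24 * q2 - 18 * q3) * T0) = 0 := by
    rw [hw1, hw2, hH4] at e1
    set c1 := -4 * y * TA + 10 * y * TB + 2 * TC with hc1
    set k := 2 * q3 - 3 * q2 with hk1
    set u := 2 * H with hu
    set v := -3 * q2 with hv
    linear_combination 8 * e1 + (8 * p * (TA + TB)) * hy
      - ((u + v) * c1 + (u * v + H ^ 2) * T0 + p * ((u * v + H ^ 2) * c1 + H ^ 2 * v * T0)
        + p ^ 2 * (H ^ 2 * v * c1) - 9 * k * (-4 * y * TA + 10 * y * TB)) * hpp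
      - ((1 + p * H) ^ 2 * (1 - p * (3 * q2)) * (T0 + p * c1)
        - 9 * (1 + p * k) * (T0 + p * (-4 * y * TA + 10 * y * TB))) * he
  have hUS : (p : R p) * (UB - UA) = p * (SA - SB) := by
    linear_combination v2 - v3 - (p * (UB - UA)) * hy + (6 * y * (SA - SB)) * hpQ
      + (p * (SA - SB)) * hy
  have hST : (p : R p) * (SA - SB) = 2 * (p * (TA - TB)) := by
    linear_combination 2 * (t1 - t2 - s1 + s2) - (p * (SA - SB) - 2 * (p * (TA - TB))) * hy
  have hS3 : S0 = T0 := by
    apply u3.mul_left_cancel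
    linear_combination 2 * t1 + t2 - 2 * s1 - s2
  have hW : (p : R p) * (TA + TB + 2 * TC + (2 * H - 3 * q2) * T0) = 0 := by
    apply (u2.mul u2).mul_left_cancel
    linear_combination hE + 6 * hF2
  have hU5 : U0 = T0 := by
    apply u5.mul_left_cancel
    rw [hw1] at tl
    set d1 := 14 * y * TA - 2 * y * TB + 2 * TC with hd1
    set u := 2 * H with hu
    set v := -3 * q2 with hv
    linear_combination -v1 + 4 * tl + (-20 * y) * hUS + (-20 * y) * hST + hW
      + (p * (TA + TB)) * hy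
      + ((u + v) * d1 + (u * v + H ^ 2) * T0 + p * ((u * v + H ^ 2) * d1 + H ^ 2 * v * T0)
        + p ^ 2 * (H ^ 2 * v * d1)) * hpp
      + ((1 + p * H) ^ 2 * (1 - p * (3 * q2)) * (T0 + p * d1)) * he
  exact ⟨hS3.trans hT00, hU5.trans hT00⟩

end Pool.Agent.Q278.SX
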